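import Pool.Agent.LibCF24.Final

/-! # Virtually CAT(0) mapping tori: automorphisms with a power which is a Dehn twist -/

set_option autoImplicit false

namespace Pool.Agent.Results.MP_bd7b42_al.DehnTwistRoots

open Pool.Agent.LibCF24
open LibBD85 (Torus CAT0Group InCAT0 QLength)

/-- If a power `φ ^ m`, `m ≥ 1`, is a Dehn twist, then some subgroup of finite index of `F_n ⋊_φ ℤ` is a CAT(0) group if and only if
`F_n ⋊_φ ℤ` has a quadratic length. -/
theorem result (n : ℕ) (φ : MulAut (FreeGroup (Fin n))) (m : ℕ) (hm : 0 < m) (hφ : IsDehnTwist (φ ^ m)) :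
    (∃ H : Subgroup (Torus φ), H.FiniteIndex ∧ CAT0Group H) ↔ ∃ L : Torus φ → ℝ, QLength L :=
  virt_criterion φ m hm hφ

end Pool.Agent.Results.MP_bd7b42_al.DehnTwistRoots
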