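import Pool.Agent.LibCF24.C6

/-! # CAT(0) mapping tori of Dehn twists of free groups -/

set_option autoImplicit false

namespace Pool.Agent.Results.MP_bd7b42_al.DehnTwists

open Pool.Agent.LibCF24
open LibBD85 (Torus CAT0Group InCAT0 QLength)

/-- For a Dehn twist `φ` the mapping torus `F_n ⋊_φ ℤ` is a CAT(0) group if and only if `φ` has a twisted length `(N, M)`,
and if and only if some subgroup of finite index of it is isomorphic to a subgroup of a CAT(0) group. -/
theorem result (n : ℕ) (φ : MulAut (FreeGroup (Fin n))) (hφ : IsDehnTwist φ) :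
    (CAT0Group (Torus φ) ↔ ∃ N M, TL φ N M) ∧ (CAT0Group (Torus φ) ↔ VirtInCAT0 (Torus φ)) :=
  criterion φ hφ

end Pool.Agent.Results.MP_bd7b42_al.DehnTwists
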