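import Pool.Agent.LibCF24.Final
import Pool.Agent.LibCF24.F3

/-! # The automorphisms `a_i ↦ a_i`, `b_j ↦ w_j b_j u_j` -/

set_option autoImplicit false

namespace Pool.Agent.Results.MP_bd7b42_al.ExplicitTwists

open Pool.Agent.LibCF24
open LibBD85 (Torus CAT0Group InCAT0 QLength)

/-- `φ a_i = a_i` (`i < k`), `φ b_j = w_j b_j u_j` (`j < l`), `w_j`, `u_j` arbitrary elements of the free group on the `a_i`.
The mapping torus `F_(k+l) ⋊_φ ℤ` is a CAT(0) group if and only if every real relation `∑ c_j [w_j u_j] = 0` in the first homology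
with nonnegative weights `∑ c_j (sq y w_j - sq y u_j)` for all roots `y` has only zero weights. If all `w_j = 1` this holds if and only if
some additive function is positive at all `u_j ≠ 1` and `x u_i^a x⁻¹ = u_j^b`, `u_i ≠ 1`, `a ≠ 0` implies `a = b`. -/
theorem result (k l : ℕ) (φ : MulAut (FreeGroup (Fin (k + l)))) (w u : Fin l → FreeGroup (Fin k)) (hφ : IsExpl φ w u) :
    (CAT0Group (Torus φ) ↔
      ∀ c : Fin l → ℝ, (∀ χ : FreeGroup (Fin k) → ℝ, (∀ g g', χ (g * g') = χ g + χ g') → ∑ j, c j * χ (w j * u j) = 0) →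
        (∀ y, Root y → 0 ≤ ∑ j, c j * (sq y (w j) - sq y (u j))) →
          ∀ y, Root y → ∑ j, c j * (sq y (w j) - sq y (u j)) = 0) ∧
    ((∀ j, w j = 1) → (CAT0Group (Torus φ) ↔
      (∃ χ : FreeGroup (Fin k) → ℝ, (∀ g g', χ (g * g') = χ g + χ g') ∧ ∀ j, u j ≠ 1 → 0 < χ (u j)) ∧
        ∀ i j (x : FreeGroup (Fin k)) (a b : ℤ), u i ≠ 1 → a ≠ 0 → x * u i ^ a * x⁻¹ = u j ^ b → a = b)) := by
  refine ⟨(expl_criterion φ w u hφ).1.trans (expl_iff w u), fun hw => ?_⟩
  obtain rfl : w = fun _ => 1 := funext hw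
  exact expl_right φ u hφ

end Pool.Agent.Results.MP_bd7b42_al.ExplicitTwists
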