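import Pool.Agent.LibBD85.Transv
import Pool.Agent.LibBD85.Virt

/-! Mapping tori of automorphisms of free groups in CAT(0) groups: a necessary condition. -/

namespace Pool.Agent.Results.MP_bd7b42_al.TwistedLengths

open LibBD85

/-- some subgroup of finite index of `G` is isomorphic to a subgroup of a CAT(0) group. -/
def VirtInCAT0 (G : Type) [Group G] : Prop := ∃ H : Subgroup G, H.FiniteIndex ∧ InCAT0 H

/-- a positive function of `w` and `k` which is constant on the `φ ^ k`-twisted conjugacy classes, invariant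
under `φ`, quadratic on powers for `k = 0`, and such that `g ↦ N (g w) k - N g 0 - N w k` is additive on the
fixed subgroup of the automorphism `x ↦ w φ ^ k (x) w⁻¹`. -/
structure TwistedLength {n : ℕ} (φ : MulAut (FreeGroup (Fin n))) (N : FreeGroup (Fin n) → ℤ → ℝ) : Prop where
  pos : ∀ w k, (w ≠ 1 ∨ k ≠ 0) → 0 < N w k
  twisted : ∀ x w k, N (x * w * ((φ ^ k) x)⁻¹) k = N w k
  invariant : ∀ w k, N (φ w) k = N w k
  power : ∀ w, ∀ m : ℕ, N (w ^ m) 0 = m ^ 2 * N w 0
  additive : ∀ w k g h, w * (φ ^ k) g * w⁻¹ = g → w * (φ ^ k) h * w⁻¹ = h →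
    N (g * h * w) k - N (g * h) 0 - N w k = (N (g * w) k - N g 0 - N w k) + (N (h * w) k - N h 0 - N w k)

theorem exists_twisted {n : ℕ} (φ : MulAut (FreeGroup (Fin n))) (hφ : VirtInCAT0 (Torus φ)) :
    ∃ N, TwistedLength φ N := by
  obtain ⟨H, hH, hφ⟩ := hφ
  haveI := hH
  have htf : ∀ g : H, g ≠ 1 → ∀ n : ℕ, 0 < n → g ^ n ≠ 1 := by
    intro g hg n hn h1
    have h2 : (g : Torus φ) ≠ 1 := fun h => hg (Subtype.ext h)
    exact torus_tf φ g h2 n hn (congrArg Subtype.val h1)
  obtain ⟨L0, h1, h2, h3, h4⟩ := length_exists hφ htf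
  obtain ⟨L, hpos, hconj, hpow, hadd⟩ := length_virt (torus_tf φ) H L0 ⟨h1, h2, h3, h4⟩
  have e0 : ∀ g, elt φ g 0 = SemidirectProduct.inl g := by
    intro g
    unfold elt
    rw [ofAdd_zero, map_one, mul_one]
  have emul : ∀ g w k, elt φ (g * w) k = SemidirectProduct.inl g * elt φ w k := by
    intro g w k
    unfold elt
    rw [map_mul, mul_assoc]
  refine ⟨fun w k => L (elt φ w k), ?_, ?_, ?_, ?_, ?_⟩
  · intro w k h
    apply hpos
    intro h1
    rcases h with h | h
    · apply h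
      have := congrArg SemidirectProduct.left h1
      simpa [elt] using this
    · apply h
      have := congrArg SemidirectProduct.right h1
      simpa [elt] using this
  · intro x w k
    have h1 := elt_conj φ 1 k x⁻¹
    rw [map_one, one_mul] at h1
    have h2 : elt φ (x * w * ((φ ^ k) x)⁻¹) k =
        SemidirectProduct.inl x * elt φ w k * (SemidirectProduct.inl x)⁻¹ := by
      have h3 : elt φ (x * w * ((φ ^ k) x)⁻¹) k =
          SemidirectProduct.inl (x * w) * (SemidirectProduct.inl ((φ ^ k) x⁻¹) * elt φ 1 k) := by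
        rw [← emul, ← emul, map_inv]
        simp
      have h4 : elt φ w k = SemidirectProduct.inl w * elt φ 1 k := by rw [← emul, mul_one]
      rw [h3, ← h1, inv_mul_cancel_right, map_mul, map_inv, h4]
      simp only [mul_assoc]
    show L _ = L _
    rw [h2, hconj]
  · intro w k
    have h1 := elt_conj φ 1 1 w
    rw [map_one, one_mul, zpow_one] at h1
    have h2 : elt φ (φ w) k = elt φ 1 1 * elt φ w k * (elt φ 1 1)⁻¹ := by
      have h3 : Commute (elt φ 1 1) (elt φ 1 k) := by
        unfold elt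
        rw [map_one, one_mul, one_mul]
        exact (Commute.all (Multiplicative.ofAdd (1 : ℤ)) (Multiplicative.ofAdd k)).map SemidirectProduct.inr
      have h4 : elt φ w k = SemidirectProduct.inl w * elt φ 1 k := by rw [← emul, mul_one]
      have h5 : elt φ (φ w) k = SemidirectProduct.inl (φ w) * elt φ 1 k := by rw [← emul, mul_one]
      rw [h4, h5, ← h1]
      have h6 : (elt φ 1 1)⁻¹ * elt φ 1 k = elt φ 1 k * (elt φ 1 1)⁻¹ := h3.inv_left.eq
      rw [mul_assoc, h6, mul_assoc, mul_assoc, mul_assoc]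
    show L _ = L _
    rw [h2, hconj]
  · intro w m
    simp only [e0, map_pow]
    exact hpow _ m
  · intro w k g h hg hh
    have hcomm : ∀ g, w * (φ ^ k) g * w⁻¹ = g → Commute (SemidirectProduct.inl g : Torus φ) (elt φ w k) := by
      intro g hg
      have h1 := elt_conj φ w k g
      rw [MulAut.mul_apply, MulAut.conj_apply, hg] at h1
      exact (mul_inv_eq_iff_eq_mul.mp h1).symm
    simp only [e0, emul, map_mul]
    exact hadd (elt φ w k) _ _ (hcomm g hg) (hcomm h hh)

/-- the value at `u = x⁻¹ ψ(x)`, `ψ = conj w * φ ^ k`. -/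
theorem TwistedLength.value {n : ℕ} {φ : MulAut (FreeGroup (Fin n))} {N : FreeGroup (Fin n) → ℤ → ℝ}
    (hN : TwistedLength φ N) (w : FreeGroup (Fin n)) (k : ℤ) (x : FreeGroup (Fin n)) :
    N (x⁻¹ * (w * (φ ^ k) x * w⁻¹) * w) k = N w k := by
  have h := hN.twisted x⁻¹ w k
  have e : x⁻¹ * w * ((φ ^ k) x⁻¹)⁻¹ = x⁻¹ * (w * (φ ^ k) x * w⁻¹) * w := by
    rw [map_inv]
    group
  rwa [e] at h

theorem TwistedLength.one {n : ℕ} {φ : MulAut (FreeGroup (Fin n))} {N : FreeGroup (Fin n) → ℤ → ℝ}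
    (hN : TwistedLength φ N) : N 1 0 = 0 := by
  have h := hN.power 1 0
  simpa using h

theorem TwistedLength.inv {n : ℕ} {φ : MulAut (FreeGroup (Fin n))} {N : FreeGroup (Fin n) → ℤ → ℝ}
    (hN : TwistedLength φ N) (c : FreeGroup (Fin n)) : N c⁻¹ 0 = N c 0 := by
  have h1 := hN.additive c 0 c c⁻¹ (by simp) (by simp)
  have h2 := hN.power c 2
  have h0 := hN.one
  rw [pow_two] at h2
  rw [mul_inv_cancel, one_mul, inv_mul_cancel, h0, h2] at h1
  push_cast at h1
  linarith

theorem TwistedLength.zpow {n : ℕ} {φ : MulAut (FreeGroup (Fin n))} {N : FreeGroup (Fin n) → ℤ → ℝ}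
    (hN : TwistedLength φ N) (c : FreeGroup (Fin n)) (i : ℤ) : N (c ^ i) 0 = i ^ 2 * N c 0 := by
  obtain ⟨m, rfl | rfl⟩ := i.eq_nat_or_neg
  · rw [zpow_natCast, hN.power]
    push_cast
    ring
  · rw [zpow_neg, zpow_natCast, hN.inv, hN.power]
    push_cast
    ring

/-- for `ψ = conj w * φ ^ k` some additive function on the fixed subgroup of `ψ` is negative on all the
`x⁻¹ ψ(x) ≠ 1` in it, and for `c ≠ 1` fixed by `ψ` at most one power `c ^ i`, `i ≠ 0`, is of the form
`x⁻¹ ψ(x)`. -/
def HalfSpace {n : ℕ} (φ : MulAut (FreeGroup (Fin n))) (w : FreeGroup (Fin n)) (k : ℤ) : Prop :=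
  (∃ β : FreeGroup (Fin n) → ℝ,
    (∀ g h, (MulAut.conj w * φ ^ k) g = g → (MulAut.conj w * φ ^ k) h = h → β (g * h) = β g + β h) ∧
    ∀ x, (MulAut.conj w * φ ^ k) (x⁻¹ * (MulAut.conj w * φ ^ k) x) = x⁻¹ * (MulAut.conj w * φ ^ k) x →
      x⁻¹ * (MulAut.conj w * φ ^ k) x ≠ 1 → β (x⁻¹ * (MulAut.conj w * φ ^ k) x) < 0) ∧
  (∀ c x y : FreeGroup (Fin n), ∀ i j : ℤ, (MulAut.conj w * φ ^ k) c = c → c ≠ 1 →
    x⁻¹ * (MulAut.conj w * φ ^ k) x = c ^ i → y⁻¹ * (MulAut.conj w * φ ^ k) y = c ^ j → i ≠ 0 → j ≠ 0 → i = j)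

theorem halfSpace_of_twisted {n : ℕ} (φ : MulAut (FreeGroup (Fin n))) (h : ∃ N, TwistedLength φ N)
    (w : FreeGroup (Fin n)) (k : ℤ) : HalfSpace φ w k := by
  obtain ⟨N, hN⟩ := h
  have ha : ∀ x, (MulAut.conj w * φ ^ k) x = w * (φ ^ k) x * w⁻¹ := fun x => rfl
  set β : FreeGroup (Fin n) → ℝ := fun g => N (g * w) k - N g 0 - N w k with hβ
  have hadd : ∀ g h, (MulAut.conj w * φ ^ k) g = g → (MulAut.conj w * φ ^ k) h = h → β (g * h) = β g + β h :=
    fun g h hg hh => hN.additive w k g h (by rw [← ha]; exact hg) (by rw [← ha]; exact hh)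
  have hval : ∀ x, β (x⁻¹ * (MulAut.conj w * φ ^ k) x) = - N (x⁻¹ * (MulAut.conj w * φ ^ k) x) 0 := by
    intro x
    show N (x⁻¹ * (MulAut.conj w * φ ^ k) x * w) k - N (x⁻¹ * (MulAut.conj w * φ ^ k) x) 0 - N w k = _
    rw [ha, hN.value]
    ring
  refine ⟨⟨β, hadd, ?_⟩, ?_⟩
  · intro x _ hx1
    rw [hval]
    have := hN.pos _ 0 (Or.inl hx1)
    linarith
  · intro c x y i j hc hc1 hx hy hi hj
    set ψ := MulAut.conj w * φ ^ k with hψ
    have hone : β 1 = 0 := by
      have := hadd 1 1 (map_one _) (map_one _)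
      rw [mul_one] at this
      linarith
    have hfix : ∀ m : ℤ, ψ (c ^ m) = c ^ m := fun m => by rw [map_zpow, hc]
    have hnat : ∀ m : ℕ, β (c ^ m) = m * β c := by
      intro m
      induction m with
      | zero => simp [hone]
      | succ m ih =>
        rw [pow_succ, hadd _ _ (by rw [map_pow, hc]) hc, ih]
        push_cast
        ring
    have hz : ∀ m : ℤ, β (c ^ m) = m * β c := by
      intro m
      obtain ⟨l, rfl | rfl⟩ := m.eq_nat_or_neg
      · rw [zpow_natCast, hnat]
        push_cast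
        ring
      · have h1 := hadd (c ^ (-(l : ℤ))) (c ^ (l : ℤ)) (hfix _) (hfix _)
        rw [← zpow_add, neg_add_cancel, zpow_zero, hone] at h1
        have h2 : β (c ^ (l : ℤ)) = l * β c := by rw [zpow_natCast, hnat]
        rw [h2] at h1
        push_cast
        linarith
    have hNc : 0 < N c 0 := hN.pos c 0 (Or.inl hc1)
    have key : ∀ (z : FreeGroup (Fin n)) (m : ℤ), z⁻¹ * ψ z = c ^ m → m ≠ 0 → β c = - (m * N c 0) := by
      intro z m hz' hm
      have h1 := hval z
      rw [hz', hz, hN.zpow] at h1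
      have hm' : (m : ℝ) ≠ 0 := by exact_mod_cast hm
      have h2 : (m : ℝ) * (β c + m * N c 0) = 0 := by
        have : (m : ℝ) * (β c + m * N c 0) = m * β c + m ^ 2 * N c 0 := by ring
        rw [this, h1]
        ring
      rcases mul_eq_zero.mp h2 with h3 | h3
      · exact absurd h3 hm'
      · linarith
    have h1 := key x i hx hi
    have h2 := key y j hy hj
    have h3 : ((i : ℝ) - j) * N c 0 = 0 := by linarith
    rcases mul_eq_zero.mp h3 with h4 | h4
    · have : (i : ℝ) = j := by linarith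
      exact_mod_cast this
    · linarith

theorem transv_map {n : ℕ} (v w : FreeGroup (Fin n)) :
    transv v (FreeGroup.map Fin.castSucc w) = FreeGroup.map Fin.castSucc w := transvHom_map v w

theorem no_twisted_transv {n : ℕ} (v : FreeGroup (Fin n)) (hv : v ∈ commutator (FreeGroup (Fin n))) (hv1 : v ≠ 1) :
    ¬ ∃ N, TwistedLength (transv v) N := by
  intro h
  obtain ⟨⟨β, hadd, hneg⟩, -⟩ := halfSpace_of_twisted (transv v) h 1 1
  simp only [map_one, zpow_one, one_mul] at hadd hneg
  have e : (FreeGroup.of (Fin.last n))⁻¹ * transv v (FreeGroup.of (Fin.last n)) = FreeGroup.map Fin.castSucc v := by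
    rw [transv_apply, transvHom_last, inv_mul_cancel_left]
  have h1 := hneg (FreeGroup.of (Fin.last n)) (by rw [e, transv_map]) (by
    rw [e]
    intro h
    exact hv1 (map_castSucc_injective (by rw [h, _root_.map_one])))
  rw [e] at h1
  have hone : β 1 = 0 := by
    have := hadd 1 1 (map_one _) (map_one _)
    rw [mul_one] at this
    linarith
  let b : FreeGroup (Fin n) →* Multiplicative ℝ :=
    { toFun := fun g => Multiplicative.ofAdd (β (FreeGroup.map Fin.castSucc g))
      map_one' := by rw [map_one, hone]; rfl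
      map_mul' := by
        intro g h
        rw [map_mul, hadd _ _ (transv_map v g) (transv_map v h)]
        rfl }
  have h2 : v ∈ b.ker := Abelianization.commutator_subset_ker b hv
  have h3 : β (FreeGroup.map Fin.castSucc v) = 0 := congrArg Multiplicative.toAdd (MonoidHom.mem_ker.mp h2)
  linarith

/-- (1) if the mapping torus of `φ` is virtually a subgroup of a CAT(0) group, then `φ` has a twisted length;
(2) if `φ` has a twisted length, then `HalfSpace φ w k` for all `w`, `k`;
(3) the automorphism `transv v` of `F_(n+1)` fixing `x_0, ..., x_(n-1)` and sending `x_n` to `x_n v`,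
`v ≠ 1` in the commutator subgroup of `F_n`, has no twisted length, so its mapping torus is not virtually
a subgroup of a CAT(0) group. -/
theorem result :
    (∀ (n : ℕ) (φ : MulAut (FreeGroup (Fin n))), VirtInCAT0 (Torus φ) → ∃ N, TwistedLength φ N) ∧
    (∀ (n : ℕ) (φ : MulAut (FreeGroup (Fin n))), (∃ N, TwistedLength φ N) →
      ∀ (w : FreeGroup (Fin n)) (k : ℤ), HalfSpace φ w k) ∧
    (∀ (n : ℕ) (v : FreeGroup (Fin n)), v ∈ commutator (FreeGroup (Fin n)) → v ≠ 1 →
      (¬ ∃ N, TwistedLength (transv v) N) ∧ ¬ VirtInCAT0 (Torus (transv v))) :=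
  ⟨fun _ φ hφ => exists_twisted φ hφ, fun _ φ h w k => halfSpace_of_twisted φ h w k,
    fun _ v hv hv1 => ⟨no_twisted_transv v hv hv1, fun h => no_twisted_transv v hv hv1 (exists_twisted _ h)⟩⟩

end Pool.Agent.Results.MP_bd7b42_al.TwistedLengths
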